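import Pool.Agent.Helper35.HSF.StH

/-!
# Project HSF, module NUX : the unit normal for all times
-/

set_option autoImplicit false

namespace Helper66.HSF

open Helper35.HSF Helper35.MS Helper35.PI Helper35.PI2 Helper32.CL
open scoped ContDiff Manifold Topology ENNReal BigOperators
open MeasureTheory Set Filter

section NuxAlg

variable {n : ℕ}

/-- the matrix with the rows `b₁,..,b_n,a,w` -/
noncomputable def nuxM (a : EE (n + 2)) (b : Fin n → EE (n + 2)) (w : EE (n + 2)) :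
    Matrix (Fin n ⊕ Fin 2) (Fin n ⊕ Fin 2) ℝ :=
  Matrix.of fun r c => (Sum.elim b ![a, w] r) (finSumFinEquiv c)

/-- its determinant -/
noncomputable def nuxD (a : EE (n + 2)) (b : Fin n → EE (n + 2)) (w : EE (n + 2)) : ℝ :=
  (nuxM a b w).det

/-- the vector product -/
noncomputable def nuxC (a : EE (n + 2)) (b : Fin n → EE (n + 2)) : EE (n + 2) :=
  WithLp.toLp 2 fun k => nuxD a b (ee k)

theorem nux_ee_sum {k : ℕ} (v : EE k) : v = ∑ i, v i • ee i := by
  ext j
  simp [ee, Pi.single_apply]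

/-- coordinates -/
noncomputable def nuxW (n : ℕ) : EE (n + 2) →ₗ[ℝ] (Fin n ⊕ Fin 2 → ℝ) where
  toFun := fun w c => w (finSumFinEquiv c)
  map_add' := fun _ _ => rfl
  map_smul' := fun _ _ => rfl

/-- linearity in the last vector -/
noncomputable def nuxL (a : EE (n + 2)) (b : Fin n → EE (n + 2)) : EE (n + 2) →ₗ[ℝ] ℝ :=
  ((Matrix.detRowAlternating (n := Fin n ⊕ Fin 2) (R := ℝ)).toMultilinearMap.toLinearMap
    (nuxM a b 0) (Sum.inr 1)).comp (nuxW n)

theorem nuxL_apply (a : EE (n + 2)) (b : Fin n → EE (n + 2)) (w : EE (n + 2)) :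
    nuxL a b w = nuxD a b w := by
  unfold nuxL nuxD
  change Matrix.det (Function.update (nuxM a b 0) (Sum.inr 1) (fun c => w (finSumFinEquiv c))) = _
  congr 1
  funext r c
  rcases r with i | i
  · simp [nuxM]
  · fin_cases i
    · simp [nuxM]
    · simp [nuxM]

theorem nuxC_inner (a : EE (n + 2)) (b : Fin n → EE (n + 2)) (w : EE (n + 2)) :
    (inner ℝ (nuxC a b) w : ℝ) = nuxD a b w := by
  have h1 : nuxD a b w = ∑ k, w k * nuxD a b (ee k) := by
    rw [← nuxL_apply]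
    conv_lhs => rw [nux_ee_sum w]
    rw [map_sum]
    refine Finset.sum_congr rfl fun k _ => ?_
    rw [map_smul, nuxL_apply, smul_eq_mul]
  rw [h1, PiLp.inner_apply]
  refine Finset.sum_congr rfl fun k _ => ?_
  simp [nuxC]

theorem nuxD_a (a : EE (n + 2)) (b : Fin n → EE (n + 2)) : nuxD a b a = 0 := by
  unfold nuxD
  refine Matrix.det_zero_of_row_eq (i := Sum.inr 0) (j := Sum.inr 1) (by simp) ?_
  funext c
  simp [nuxM]

theorem nuxD_b (a : EE (n + 2)) (b : Fin n → EE (n + 2)) (i : Fin n) : nuxD a b (b i) = 0 := by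
  unfold nuxD
  refine Matrix.det_zero_of_row_eq (i := Sum.inl i) (j := Sum.inr 1) (by simp) ?_
  funext c
  simp [nuxM]

theorem nuxD_ne {a : EE (n + 2)} {b : Fin n → EE (n + 2)} {w : EE (n + 2)}
    (hb : LinearIndependent ℝ b) (ha : a ≠ 0) (hab : ∀ i, (inner ℝ a (b i) : ℝ) = 0)
    (hw : w ≠ 0) (hwa : (inner ℝ w a : ℝ) = 0) (hwb : ∀ i, (inner ℝ w (b i) : ℝ) = 0) :
    nuxD a b w ≠ 0 := by
  intro h0
  unfold nuxD at h0
  obtain ⟨x, hx, hx0⟩ := Matrix.exists_vecMul_eq_zero_iff.2 h0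
  have h1 : ∑ i, x (Sum.inl i) • b i + (x (Sum.inr 0) • a + x (Sum.inr 1) • w) = 0 := by
    ext k
    have h2 := congrFun hx0 (finSumFinEquiv.symm k)
    simp only [Matrix.vecMul, dotProduct, nuxM, Matrix.of_apply, Fintype.sum_sum_type,
      Equiv.apply_symm_apply, Sum.elim_inl, Sum.elim_inr, Fin.sum_univ_two, Pi.zero_apply] at h2
    simpa using h2
  have h3 : x (Sum.inr 1) = 0 := by
    have h4 : (inner ℝ w (∑ i, x (Sum.inl i) • b i + (x (Sum.inr 0) • a + x (Sum.inr 1) • w)) : ℝ)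
        = 0 := by rw [h1, inner_zero_right]
    rw [inner_add_right, inner_sum, inner_add_right, real_inner_smul_right, real_inner_smul_right,
      hwa] at h4
    simp only [real_inner_smul_right, hwb, mul_zero, Finset.sum_const_zero, zero_add] at h4
    rcases mul_eq_zero.1 h4 with h | h
    · exact h
    · exact absurd (inner_self_eq_zero.1 h) hw
  have h5 : x (Sum.inr 0) = 0 := by
    have h4 : (inner ℝ a (∑ i, x (Sum.inl i) • b i + (x (Sum.inr 0) • a + x (Sum.inr 1) • w)) : ℝ)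
        = 0 := by rw [h1, inner_zero_right]
    rw [inner_add_right, inner_sum, inner_add_right, real_inner_smul_right, real_inner_smul_right,
      h3] at h4
    simp only [real_inner_smul_right, hab, mul_zero, zero_mul, Finset.sum_const_zero, zero_add,
      add_zero] at h4
    rcases mul_eq_zero.1 h4 with h | h
    · exact h
    · exact absurd (inner_self_eq_zero.1 h) ha
  rw [h3, h5, zero_smul, zero_smul, add_zero, add_zero] at h1
  have h6 := Fintype.linearIndependent_iff.1 hb (fun i => x (Sum.inl i)) h1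
  apply hx
  funext r
  rcases r with i | i
  · exact h6 i
  · fin_cases i
    · exact h5
    · exact h3

/-- the vector product is a multiple of every unit normal -/
theorem nuxC_eq {a : EE (n + 2)} {b : Fin n → EE (n + 2)} {w : EE (n + 2)}
    (hb : LinearIndependent ℝ b) (ha : a ≠ 0) (hab : ∀ i, (inner ℝ a (b i) : ℝ) = 0)
    (hw : ‖w‖ = 1) (hwa : (inner ℝ w a : ℝ) = 0) (hwb : ∀ i, (inner ℝ w (b i) : ℝ) = 0) :
    nuxC a b = nuxD a b w • w := by
  have hw0 : w ≠ 0 := by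
    intro h
    rw [h, norm_zero] at hw
    exact zero_ne_one hw
  by_contra hne
  have hz0 : nuxC a b - nuxD a b w • w ≠ 0 := sub_ne_zero.2 hne
  have hza : (inner ℝ (nuxC a b - nuxD a b w • w) a : ℝ) = 0 := by
    rw [inner_sub_left, nuxC_inner, nuxD_a, real_inner_smul_left, hwa, mul_zero, sub_zero]
  have hzb : ∀ i, (inner ℝ (nuxC a b - nuxD a b w • w) (b i) : ℝ) = 0 := by
    intro i
    rw [inner_sub_left, nuxC_inner, nuxD_b, real_inner_smul_left, hwb, mul_zero, sub_zero]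
  have hzw : (inner ℝ (nuxC a b - nuxD a b w • w) w : ℝ) = 0 := by
    rw [inner_sub_left, nuxC_inner, real_inner_smul_left, real_inner_self_eq_norm_sq, hw]
    ring
  have hdet := nuxD_ne hb ha hab hz0 hza hzb
  unfold nuxD at hdet
  have h1 : (nuxM a b (nuxC a b - nuxD a b w • w)).mulVec (fun c => w (finSumFinEquiv c)) = 0 := by
    funext r
    have h2 : ∀ z : EE (n + 2), ∑ c : Fin n ⊕ Fin 2, z (finSumFinEquiv c) * w (finSumFinEquiv c)
        = inner ℝ w z := by
      intro z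
      rw [PiLp.inner_apply, finSumFinEquiv.sum_comp (fun k => z k * w k)]
      refine Finset.sum_congr rfl fun k _ => ?_
      simp
    rcases r with i | i
    · have h3 := h2 (b i)
      rw [hwb] at h3
      simpa [Matrix.mulVec, dotProduct, nuxM] using h3
    · fin_cases i
      · have h3 := h2 a
        rw [hwa] at h3
        simpa [Matrix.mulVec, dotProduct, nuxM] using h3
      · have h3 := h2 (nuxC a b - nuxD a b w • w)
        rw [real_inner_comm, hzw] at h3
        simpa [Matrix.mulVec, dotProduct, nuxM] using h3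
  have h4 := Matrix.eq_zero_of_mulVec_eq_zero hdet h1
  apply hw0
  ext k
  have h5 := congrFun h4 (finSumFinEquiv.symm k)
  simpa using h5

/-- change of the basis -/
theorem nuxD_tr (a : EE (n + 2)) (b : Fin n → EE (n + 2)) (J : Matrix (Fin n) (Fin n) ℝ)
    (w : EE (n + 2)) : nuxD a (fun i => ∑ j, J i j • b j) w = J.det * nuxD a b w := by
  have h1 : nuxM a (fun i => ∑ j, J i j • b j) w
      = Matrix.fromBlocks J 0 0 (1 : Matrix (Fin 2) (Fin 2) ℝ) * nuxM a b w := by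
    ext r c
    rcases r with i | i
    · simp [Matrix.mul_apply, nuxM]
    · simp [Matrix.mul_apply, nuxM, Matrix.one_apply]
  unfold nuxD
  rw [h1, Matrix.det_mul, Matrix.det_fromBlocks_zero₂₁, Matrix.det_one, mul_one]

theorem nuxC_tr (a : EE (n + 2)) (b : Fin n → EE (n + 2)) (J : Matrix (Fin n) (Fin n) ℝ) :
    nuxC a (fun i => ∑ j, J i j • b j) = J.det • nuxC a b := by
  ext k
  simp [nuxC, nuxD_tr]

/-- existence of a unit normal -/
theorem nux_ex (a : EE (n + 2)) (b : Fin n → EE (n + 2)) : ∃ w : EE (n + 2), ‖w‖ = 1 ∧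
    (inner ℝ w a : ℝ) = 0 ∧ ∀ i, (inner ℝ w (b i) : ℝ) = 0 := by
  obtain ⟨W, hW⟩ : ∃ W : Submodule ℝ (EE (n + 2)),
      W = Submodule.span ℝ (range fun i : Option (Fin n) => i.elim a b) := ⟨_, rfl⟩
  have h1 : Module.finrank ℝ W ≤ n + 1 := by
    have h := finrank_range_le_card (R := ℝ) (fun i : Option (Fin n) => i.elim a b)
    rw [Fintype.card_option, Fintype.card_fin] at h
    rw [hW]
    exact h
  have h2 : Wᗮ ≠ ⊥ := by
    intro h
    have h3 : W = ⊤ := (Submodule.orthogonal_eq_bot_iff).1 h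
    rw [h3, finrank_top, finrank_euclideanSpace_fin] at h1
    omega
  obtain ⟨z, hz, hz0⟩ := Submodule.exists_mem_ne_zero_of_ne_bot h2
  have hz1 : ∀ v ∈ W, (inner ℝ v z : ℝ) = 0 := fun v hv =>
    (Submodule.mem_orthogonal W z).1 hz v hv
  have hm : ∀ i : Option (Fin n), i.elim a b ∈ W := by
    intro i
    rw [hW]
    exact Submodule.subset_span (mem_range_self i)
  refine ⟨‖z‖⁻¹ • z, ?_, ?_, ?_⟩
  · rw [norm_smul, norm_inv, norm_norm, inv_mul_cancel₀ (norm_ne_zero_iff.2 hz0)]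
  · rw [real_inner_smul_left, real_inner_comm, hz1 a (hm none), mul_zero]
  · intro i
    rw [real_inner_smul_left, real_inner_comm, hz1 (b i) (hm (some i)), mul_zero]

theorem nuxC_ne {a : EE (n + 2)} {b : Fin n → EE (n + 2)}
    (hb : LinearIndependent ℝ b) (ha : a ≠ 0) (hab : ∀ i, (inner ℝ a (b i) : ℝ) = 0) :
    nuxC a b ≠ 0 := by
  obtain ⟨w, hw, hwa, hwb⟩ := nux_ex a b
  have hw0 : w ≠ 0 := by
    intro h
    rw [h, norm_zero] at hw
    exact zero_ne_one hw
  rw [nuxC_eq hb ha hab hw hwa hwb]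
  exact smul_ne_zero (nuxD_ne hb ha hab hw0 hwa hwb) hw0

/-- smoothness -/
theorem nuxD_smooth {X : Type*} [NormedAddCommGroup X] [NormedSpace ℝ X] {S : Set X}
    {a w : X → EE (n + 2)} {b : X → Fin n → EE (n + 2)} (ha : ContDiffOn ℝ ∞ a S)
    (hb : ∀ i, ContDiffOn ℝ ∞ (fun x => b x i) S) (hw : ContDiffOn ℝ ∞ w S) :
    ContDiffOn ℝ ∞ (fun x => nuxD (a x) (b x) (w x)) S := by
  have h1 : ∀ {v : X → EE (n + 2)}, ContDiffOn ℝ ∞ v S → ∀ k, ContDiffOn ℝ ∞ (fun x => v x k) S := by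
    intro v hv k
    exact (contDiffOn_euclidean.1 hv) k
  unfold nuxD
  simp only [Matrix.det_apply]
  refine ContDiffOn.sum fun σ _ => ?_
  refine ContDiffOn.const_smul _ ?_
  refine contDiffOn_prod fun r _ => ?_
  rcases hr : σ r with i | i
  · simp only [nuxM, Matrix.of_apply, Sum.elim_inl]
    exact h1 (hb i) _
  · fin_cases i
    · simp only [nuxM, Matrix.of_apply, Sum.elim_inr]
      exact h1 ha _
    · simp only [nuxM, Matrix.of_apply, Sum.elim_inr]
      exact h1 hw _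

theorem nuxC_smooth {X : Type*} [NormedAddCommGroup X] [NormedSpace ℝ X] {S : Set X}
    {a : X → EE (n + 2)} {b : X → Fin n → EE (n + 2)} (ha : ContDiffOn ℝ ∞ a S)
    (hb : ∀ i, ContDiffOn ℝ ∞ (fun x => b x i) S) :
    ContDiffOn ℝ ∞ (fun x => nuxC (a x) (b x)) S := by
  rw [contDiffOn_euclidean]
  intro k
  exact nuxD_smooth ha hb contDiffOn_const

end NuxAlg

section NuxGeo

variable {n N : ℕ} {V : Type} [NormedAddCommGroup V] [NormedSpace ℝ V]

theorem nux_slice {T : Set (EE n)} (hT : IsOpen T) {I : Set ℝ} {g : EE n × ℝ → V}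
    (hg : ContDiffOn ℝ ∞ g (T ×ˢ I)) {y : EE n} {s : ℝ} (hy : y ∈ T) (hs : s ∈ I) (v : EE n) :
    fderiv ℝ (fun y' => g (y', s)) y v = fderivWithin ℝ g (T ×ˢ I) (y, s) (v, 0) := by
  have hd : DifferentiableWithinAt ℝ g (T ×ˢ I) (y, s) :=
    (hg.differentiableOn (by simp)) (y, s) ⟨hy, hs⟩
  have h1 : HasFDerivWithinAt g (fderivWithin ℝ g (T ×ˢ I) (y, s)) (T ×ˢ I) (y, s) :=
    hd.hasFDerivWithinAt
  have h2 : HasFDerivWithinAt (fun y' : EE n => (y', s))
      (ContinuousLinearMap.inl ℝ (EE n) ℝ) T y := by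
    have h3 : HasFDerivAt (fun y' : EE n => (y', s))
        ((ContinuousLinearMap.id ℝ (EE n)).prod (0 : EE n →L[ℝ] ℝ)) y :=
      (hasFDerivAt_id y).prodMk (hasFDerivAt_const s y)
    exact h3.hasFDerivWithinAt
  have hm : MapsTo (fun y' : EE n => (y', s)) T (T ×ˢ I) := fun y' hy' => ⟨hy', hs⟩
  have h4 : HasFDerivWithinAt (fun y' : EE n => g (y', s))
      ((fderivWithin ℝ g (T ×ˢ I) (y, s)).comp (ContinuousLinearMap.inl ℝ (EE n) ℝ)) T y :=
    h1.comp y h2 hm
  have h5 := h4.hasFDerivAt (hT.mem_nhds hy)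
  rw [h5.fderiv]
  rfl

variable {M : Type} [TopologicalSpace M] [ChartedSpace (EE n) M] [IsManifold (𝓡 n) ∞ M]
  {I : Set ℝ} {F : M → ℝ → EE N}

theorem nux_sm (hF : SMCF n I F) (p : M) :
    ContDiffOn ℝ ∞ (fun z : EE n × ℝ => F ((chartAt (EE n) p).symm z.1) z.2)
      ((chartAt (EE n) p).target ×ˢ I) := by
  have h1 : ContMDiffOn (𝓡 n) (𝓡 n) ∞ (chartAt (EE n) p).symm (chartAt (EE n) p).target :=
    contMDiffOn_chart_symm
  have h2 : ContMDiffOn ((𝓡 n).prod 𝓘(ℝ, ℝ)) ((𝓡 n).prod 𝓘(ℝ, ℝ)) ∞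
      (fun z : EE n × ℝ => ((chartAt (EE n) p).symm z.1, z.2))
      ((chartAt (EE n) p).target ×ˢ I) := by
    refine ContMDiffOn.prodMk ?_ ?_
    · exact h1.comp contMDiff_fst.contMDiffOn (fun z hz => hz.1)
    · exact contMDiff_snd.contMDiffOn
  have h3 : ContMDiffOn ((𝓡 n).prod 𝓘(ℝ, ℝ)) 𝓘(ℝ, EE N) ∞
      (fun z : EE n × ℝ => F ((chartAt (EE n) p).symm z.1) z.2)
      ((chartAt (EE n) p).target ×ˢ I) := by
    have := hF.smooth.comp h2 (fun z hz => ⟨mem_univ _, hz.2⟩)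
    exact this
  rw [← contMDiffOn_iff_contDiffOn]
  rw [modelWithCornersSelf_prod, ← chartedSpaceSelf_prod]
  exact h3

theorem nux_sl (hF : SMCF n I F) (p : M) {t : ℝ} (ht : t ∈ I) :
    ContDiffOn ℝ ∞ (loc (n := n) F p t) (chartAt (EE n) p).target := by
  have h1 : ContDiffOn ℝ ∞ (fun y : EE n => (y, t)) (chartAt (EE n) p).target :=
    contDiffOn_id.prodMk contDiffOn_const
  exact (nux_sm hF p).comp h1 (fun y hy => ⟨hy, ht⟩)

theorem nux_dv (hF : SMCF n I F) (hI : UniqueDiffOn ℝ I) (p : M) (i : Fin n) :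
    ContDiffOn ℝ ∞ (fun z : EE n × ℝ => dv1 (loc (n := n) F p z.2) z.1 i)
      ((chartAt (EE n) p).target ×ˢ I) := by
  have hUD : UniqueDiffOn ℝ ((chartAt (EE n) p).target ×ˢ I) :=
    (chartAt (EE n) p).open_target.uniqueDiffOn.prod hI
  have h1 := (nux_sm hF p).fderivWithin hUD (m := ∞) (by simp)
  have h2 : ContDiffOn ℝ ∞ (fun z => fderivWithin ℝ
      (fun z : EE n × ℝ => F ((chartAt (EE n) p).symm z.1) z.2)
      ((chartAt (EE n) p).target ×ˢ I) z (ee i, 0)) ((chartAt (EE n) p).target ×ˢ I) :=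
    h1.clm_apply contDiffOn_const
  refine h2.congr fun z hz => ?_
  exact nux_slice (chartAt (EE n) p).open_target (nux_sm hF p) hz.1 hz.2 (ee i)

theorem nux_orth (hF : SMCF n I F) (p : M) {y : EE n} (hy : y ∈ (chartAt (EE n) p).target)
    {t : ℝ} (ht : t ∈ I) (i : Fin n) :
    (inner ℝ (F ((chartAt (EE n) p).symm y) t) (dv1 (loc (n := n) F p t) y i) : ℝ) = 0 := by
  have h1 : DifferentiableAt ℝ (loc (n := n) F p t) y :=
    ((nux_sl hF p ht).differentiableOn (by simp) y hy).differentiableAt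
      ((chartAt (EE n) p).open_target.mem_nhds hy)
  have h2 : (fun y' => (inner ℝ (loc (n := n) F p t y') (loc (n := n) F p t y') : ℝ))
      = fun _ => (1 : ℝ) := by
    funext y'
    rw [real_inner_self_eq_norm_sq]
    unfold loc
    rw [hF.sph _ t ht, one_pow]
  have h3 := fderiv_inner_apply ℝ h1 h1 (ee i)
  rw [h2] at h3
  simp only [fderiv_fun_const, Pi.zero_apply, zero_apply] at h3
  rw [real_inner_comm (loc (n := n) F p t y)] at h3
  have h4 : (inner ℝ (loc (n := n) F p t y) (fderiv ℝ (loc (n := n) F p t) y (ee i)) : ℝ) = 0 := by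
    linarith
  exact h4

theorem nux_tr (hF : SMCF n I F) (p q : M) (hq : q ∈ (chartAt (EE n) p).source) :
    ∃ J : Matrix (Fin n) (Fin n) ℝ, ∀ t ∈ I,
      (fun i => dv1 (loc (n := n) F q t) (chartAt (EE n) q q) i)
        = fun i => ∑ j, J i j • dv1 (loc (n := n) F p t) (chartAt (EE n) p q) j := by
  have hqq : q ∈ (chartAt (EE n) q).source := mem_chart_source (EE n) q
  have hxt : chartAt (EE n) q q ∈ (chartAt (EE n) q).target :=
    (chartAt (EE n) q).map_source hqq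
  have hsymm : (chartAt (EE n) q).symm (chartAt (EE n) q q) = q :=
    (chartAt (EE n) q).left_inv hqq
  have hφ : ContDiffAt ℝ ∞ (fun y => chartAt (EE n) p ((chartAt (EE n) q).symm y))
      (chartAt (EE n) q q) := by
    have h := contDiffWithinAt_ext_coord_change (I := 𝓡 n) (n := ∞) (𝕜 := ℝ) p q
      (y := chartAt (EE n) q q) (by
        rw [ext_coord_change_source]
        refine ⟨chartAt (EE n) q q, ?_, rfl⟩
        rw [OpenPartialHomeomorph.trans_source]
        refine ⟨hxt, ?_⟩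
        change (chartAt (EE n) q).symm (chartAt (EE n) q q) ∈ (chartAt (EE n) p).source
        rw [hsymm]
        exact hq)
    rw [ModelWithCorners.range_eq_univ, contDiffWithinAt_univ] at h
    exact h
  have hφd : DifferentiableAt ℝ (fun y => chartAt (EE n) p ((chartAt (EE n) q).symm y))
      (chartAt (EE n) q q) := hφ.differentiableAt (by simp)
  refine ⟨Matrix.of fun i j => (fderiv ℝ (fun y => chartAt (EE n) p ((chartAt (EE n) q).symm y))
      (chartAt (EE n) q q) (ee i)) j, ?_⟩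
  intro t ht
  funext i
  have hev : loc (n := n) F q t =ᶠ[𝓝 (chartAt (EE n) q q)]
      (fun y => loc (n := n) F p t (chartAt (EE n) p ((chartAt (EE n) q).symm y))) := by
    have hc : ContinuousAt (chartAt (EE n) q).symm (chartAt (EE n) q q) :=
      (chartAt (EE n) q).continuousAt_symm hxt
    have hev : ∀ᶠ y in 𝓝 (chartAt (EE n) q q),
        (chartAt (EE n) q).symm y ∈ (chartAt (EE n) p).source := by
      apply hc.eventually_mem
      rw [hsymm]
      exact (chartAt (EE n) p).open_source.mem_nhds hq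
    filter_upwards [hev] with y hy
    unfold loc
    rw [(chartAt (EE n) p).left_inv hy]
  have hd : DifferentiableAt ℝ (loc (n := n) F p t) (chartAt (EE n) p q) :=
    ((nux_sl hF p ht).differentiableOn (by simp) _
      ((chartAt (EE n) p).map_source hq)).differentiableAt
      ((chartAt (EE n) p).open_target.mem_nhds ((chartAt (EE n) p).map_source hq))
  have hd' : DifferentiableAt ℝ (loc (n := n) F p t)
      (chartAt (EE n) p ((chartAt (EE n) q).symm (chartAt (EE n) q q))) := by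
    rw [hsymm]
    exact hd
  have h1 : fderiv ℝ (loc (n := n) F q t) (chartAt (EE n) q q)
      = (fderiv ℝ (loc (n := n) F p t) (chartAt (EE n) p q)).comp
        (fderiv ℝ (fun y => chartAt (EE n) p ((chartAt (EE n) q).symm y))
          (chartAt (EE n) q q)) := by
    rw [hev.fderiv_eq]
    have h2 := fderiv_comp (chartAt (EE n) q q) hd' hφd
    rw [hsymm] at h2
    exact h2
  unfold dv1
  rw [h1, ContinuousLinearMap.comp_apply]
  conv_lhs => rw [nux_ee_sum (fderiv ℝ (fun y => chartAt (EE n) p ((chartAt (EE n) q).symm y))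
          (chartAt (EE n) q q) (ee i))]
  rw [map_sum]
  refine Finset.sum_congr rfl fun j _ => ?_
  rw [map_smul]
  rfl

end NuxGeo

theorem nux_norm {V : Type*} [NormedAddCommGroup V] [NormedSpace ℝ V] (c : ℝ) (v : V) :
    ‖c • v‖⁻¹ • (c • v) = (|c|⁻¹ * c) • (‖v‖⁻¹ • v) := by
  rw [norm_smul, Real.norm_eq_abs, mul_inv, smul_smul, smul_smul]
  congr 1
  ring

theorem nux_sg {a c e : ℝ} (ha : 0 < a) (h : 0 < c * e) : |a * c|⁻¹ * (a * c) = |e|⁻¹ * e := by
  rcases mul_pos_iff.1 h with ⟨h1, h2⟩ | ⟨h1, h2⟩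
  · rw [abs_of_pos (mul_pos ha h1), abs_of_pos h2, inv_mul_cancel₀ (mul_pos ha h1).ne',
      inv_mul_cancel₀ h2.ne']
  · rw [abs_of_neg (mul_neg_of_pos_of_neg ha h1), abs_of_neg h2, inv_neg, inv_neg, neg_mul,
      neg_mul, inv_mul_cancel₀ (mul_neg_of_pos_of_neg ha h1).ne, inv_mul_cancel₀ h2.ne]

theorem nux_one {V : Type*} [NormedAddCommGroup V] [NormedSpace ℝ V] {c : ℝ} (hc : c ≠ 0) {v : V}
    (hv : v ≠ 0) : ‖(|c|⁻¹ * c) • (‖v‖⁻¹ • v)‖ = 1 := by
  rw [norm_smul, norm_smul, norm_inv, norm_norm, norm_mul, norm_inv, Real.norm_eq_abs,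
    Real.norm_eq_abs, abs_abs, inv_mul_cancel₀ (abs_ne_zero.2 hc),
    inv_mul_cancel₀ (norm_ne_zero_iff.2 hv), one_mul]

/-- NUX -/
theorem hNUX (hCTN : StCTN) (hI3J : StI3J) : StNUX := by
  intro n hn M _ _ _ I F ν₀ hI h0 hF hU
  have hfro := (hCTN n (n + 2) M I F hF).1
  -- the vectors
  obtain ⟨B, hB⟩ : ∃ B : M → M → ℝ → Fin n → EE (n + 2),
    B = fun p q t i => dv1 (loc (n := n) F p t) (chartAt (EE n) p q) i := ⟨_, rfl⟩
  obtain ⟨C, hC⟩ : ∃ C : M → M → ℝ → EE (n + 2), C = fun p q t => nuxC (F q t) (B p q t) :=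
    ⟨_, rfl⟩
  obtain ⟨D, hD⟩ : ∃ D : M → M → ℝ, D = fun p q => nuxD (F q 0) (B p q 0) (ν₀ q) := ⟨_, rfl⟩
  have hne : ∀ q, ∀ t ∈ I, F q t ≠ 0 := by
    intro q t ht h
    have := hF.sph q t ht
    rw [h, norm_zero] at this
    exact zero_ne_one this
  have hLI : ∀ p q, q ∈ (chartAt (EE n) p).source → ∀ t ∈ I, LinearIndependent ℝ (B p q t) := by
    intro p q hq t ht
    have h := (hI3J n (n + 2) M univ _ (hfro t ht).1 p q 0 (mem_univ _) hq).1
    rw [hB]
    exact h
  have horth : ∀ p q, q ∈ (chartAt (EE n) p).source → ∀ t ∈ I, ∀ i,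
      (inner ℝ (F q t) (B p q t i) : ℝ) = 0 := by
    intro p q hq t ht i
    have h := nux_orth hF p ((chartAt (EE n) p).map_source hq) ht i
    rw [(chartAt (EE n) p).left_inv hq] at h
    rw [hB]
    exact h
  have hCne : ∀ p q, q ∈ (chartAt (EE n) p).source → ∀ t ∈ I, C p q t ≠ 0 := by
    intro p q hq t ht
    rw [hC]
    exact nuxC_ne (hLI p q hq t ht) (hne q t ht) (horth p q hq t ht)
  -- change of charts
  have htr : ∀ p q, q ∈ (chartAt (EE n) p).source → ∃ a : ℝ, a ≠ 0 ∧ D q q = a * D p q ∧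
      ∀ t ∈ I, C q q t = a • C p q t := by
    intro p q hq
    obtain ⟨J, hJ⟩ := nux_tr hF p q hq
    have hJ' : ∀ t ∈ I, B q q t = fun i => ∑ j, J i j • B p q t j := by
      intro t ht
      rw [hB]
      exact hJ t ht
    have hCJ : ∀ t ∈ I, C q q t = J.det • C p q t := by
      intro t ht
      rw [hC]
      simp only
      rw [hJ' t ht, nuxC_tr]
    refine ⟨J.det, ?_, ?_, hCJ⟩
    · intro hz
      have h1 := hCne q q (mem_chart_source (EE n) q) 0 h0
      rw [hCJ 0 h0, hz, zero_smul] at h1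
      exact h1 rfl
    · rw [hD]
      simp only
      rw [hJ' 0 h0, nuxD_tr]
  have hB0 : ∀ q i, (inner ℝ (ν₀ q) (B q q 0 i) : ℝ) = 0 := by
    intro q i
    rw [real_inner_comm, hB]
    exact hU.tν q i
  have hν0 : ∀ q, ν₀ q ≠ 0 := by
    intro q h
    have := hU.nν q
    rw [h, norm_zero] at this
    exact zero_ne_one this
  have hDq : ∀ q, D q q ≠ 0 := by
    intro q
    rw [hD]
    refine nuxD_ne (hLI q q (mem_chart_source (EE n) q) 0 h0) (hne q 0 h0)
      (horth q q (mem_chart_source (EE n) q) 0 h0) (hν0 q) ?_ (hB0 q)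
    rw [real_inner_comm]
    exact hU.Fν q
  have hDp : ∀ p q, q ∈ (chartAt (EE n) p).source → D p q ≠ 0 := by
    intro p q hq hz
    obtain ⟨a, -, ha, -⟩ := htr p q hq
    rw [hz, mul_zero] at ha
    exact hDq q ha
  -- the normal
  obtain ⟨ν, hν⟩ : ∃ ν : M → ℝ → EE (n + 2),
    ν = fun q t => ‖D q q • C q q t‖⁻¹ • (D q q • C q q t) := ⟨_, rfl⟩
  have hνe : ∀ q t, ν q t = (|D q q|⁻¹ * D q q) • (‖C q q t‖⁻¹ • C q q t) := by
    intro q t
    rw [hν]
    exact nux_norm _ _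
  have hnu0 : ∀ q, ν q 0 = ν₀ q := by
    intro q
    have h1 : C q q 0 = D q q • ν₀ q := by
      rw [hC, hD]
      refine nuxC_eq (hLI q q (mem_chart_source (EE n) q) 0 h0) (hne q 0 h0)
        (horth q q (mem_chart_source (EE n) q) 0 h0) (hU.nν q) ?_ (hB0 q)
      rw [real_inner_comm]
      exact hU.Fν q
    have h2 : ν q 0 = ‖D q q • C q q 0‖⁻¹ • (D q q • C q q 0) := by rw [hν]
    have h3 : D q q • (D q q • ν₀ q) = (D q q * D q q) • ν₀ q := smul_smul _ _ _
    rw [h2, h1, h3, norm_smul, hU.nν q, mul_one, smul_smul, Real.norm_eq_abs,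
      abs_mul_self, inv_mul_cancel₀ (mul_ne_zero (hDq q) (hDq q)), one_smul]
  -- smoothness of the vector product in a chart
  have hCs : ∀ p, ContMDiffOn ((𝓡 n).prod 𝓘(ℝ, ℝ)) 𝓘(ℝ, EE (n + 2)) ∞
      (fun z : M × ℝ => C p z.1 z.2) ((chartAt (EE n) p).source ×ˢ I) := by
    intro p
    have h0 : ContDiffOn ℝ ∞ (fun z : EE n × ℝ => nuxC (F ((chartAt (EE n) p).symm z.1) z.2)
        (fun i => dv1 (loc (n := n) F p z.2) z.1 i)) ((chartAt (EE n) p).target ×ˢ I) :=
      nuxC_smooth (nux_sm hF p) (fun i => nux_dv hF hI p i)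
    have h1 : ContMDiffOn ((𝓡 n).prod 𝓘(ℝ, ℝ)) 𝓘(ℝ, EE (n + 2)) ∞
        (fun z : EE n × ℝ => nuxC (F ((chartAt (EE n) p).symm z.1) z.2)
        (fun i => dv1 (loc (n := n) F p z.2) z.1 i)) ((chartAt (EE n) p).target ×ˢ I) := by
      have h9 := h0.contMDiffOn
      rw [modelWithCornersSelf_prod, ← chartedSpaceSelf_prod] at h9
      exact h9
    have h2 : ContMDiffOn ((𝓡 n).prod 𝓘(ℝ, ℝ)) ((𝓡 n).prod 𝓘(ℝ, ℝ)) ∞
        (fun z : M × ℝ => (chartAt (EE n) p z.1, z.2)) ((chartAt (EE n) p).source ×ˢ I) := by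
      refine ContMDiffOn.prodMk ?_ ?_
      · exact (contMDiffOn_chart (I := 𝓡 n) (n := ∞) (x := p)).comp contMDiff_fst.contMDiffOn
          (fun z hz => hz.1)
      · exact contMDiff_snd.contMDiffOn
    have h3 := h1.comp h2 (fun z hz => ⟨(chartAt (EE n) p).map_source hz.1, hz.2⟩)
    refine h3.congr fun z hz => ?_
    rw [hC, hB]
    simp only [Function.comp_apply]
    rw [(chartAt (EE n) p).left_inv hz.1]
  have hDc : ∀ p, ContinuousOn (fun q => D p q) (chartAt (EE n) p).source := by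
    intro p
    have h1 : ContinuousOn (fun q => (inner ℝ (C p q 0) (ν₀ q) : ℝ)) (chartAt (EE n) p).source := by
      refine ContinuousOn.inner ?_ hU.ct.continuousOn
      have h2 : ContinuousOn (fun q : M => (q, (0 : ℝ))) (chartAt (EE n) p).source :=
        continuousOn_id.prodMk continuousOn_const
      exact (hCs p).continuousOn.comp h2 (fun q hq => ⟨hq, h0⟩)
    refine h1.congr fun q hq => ?_
    rw [hC, hD]
    simp only
    rw [nuxC_inner]
  refine ⟨ν, ⟨?_, ?_, ?_, ?_⟩, hnu0⟩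
  · -- smoothness
    intro z₀ hz₀
    obtain ⟨q₀, t₀⟩ := z₀
    obtain ⟨p, hp⟩ : ∃ p : M, p = q₀ := ⟨_, rfl⟩
    have hqs : q₀ ∈ (chartAt (EE n) p).source := by
      rw [hp]
      exact mem_chart_source (EE n) q₀
    have hopen : IsOpen (chartAt (EE n) p).source := (chartAt (EE n) p).open_source
    have h1 : ∀ᶠ q in 𝓝 q₀, 0 < D p q * D p q₀ := by
      have h2 : ContinuousAt (fun q => D p q * D p q₀) q₀ :=
        ((hDc p).continuousAt (hopen.mem_nhds hqs)).mul continuousAt_const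
      exact h2.eventually (lt_mem_nhds (mul_self_pos.2 (hDp p q₀ hqs)))
    have h2 : ∀ᶠ q in 𝓝 q₀, q ∈ (chartAt (EE n) p).source := hopen.mem_nhds hqs
    have h3 : ∀ᶠ q in 𝓝 q₀, ∀ t ∈ I, ν q t
        = (|D p q₀|⁻¹ * D p q₀) • (‖C p q t‖⁻¹ • C p q t) := by
      filter_upwards [h1, h2] with q hq1 hq2 t ht
      obtain ⟨a, ha, ha1, ha2⟩ := htr p q hq2
      have h4 : ν q t = ‖D q q • C q q t‖⁻¹ • (D q q • C q q t) := by rw [hν]
      have h5 : (a * D p q) • (a • C p q t) = (a ^ 2 * D p q) • C p q t := by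
        rw [smul_smul]
        congr 1
        ring
      rw [h4, ha1, ha2 t ht, h5, nux_norm]
      congr 1
      exact nux_sg (by positivity) hq1
    have h6 : ContMDiffWithinAt ((𝓡 n).prod 𝓘(ℝ, ℝ)) 𝓘(ℝ, EE (n + 2)) ∞
        (fun z : M × ℝ => (|D p q₀|⁻¹ * D p q₀) • (‖C p z.1 z.2‖⁻¹ • C p z.1 z.2))
        ((chartAt (EE n) p).source ×ˢ I) (q₀, t₀) := by
      have h7 := hCs p (q₀, t₀) ⟨hqs, hz₀.2⟩
      have h8 : ContDiffAt ℝ ∞ (fun v : EE (n + 2) => (|D p q₀|⁻¹ * D p q₀) • (‖v‖⁻¹ • v))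
          (C p q₀ t₀) := by
        have h9 : ContDiffAt ℝ ∞ (fun v : EE (n + 2) => ‖v‖) (C p q₀ t₀) :=
          contDiffAt_norm ℝ (hCne p q₀ hqs t₀ hz₀.2)
        have h11 : ContDiffAt ℝ ∞ (fun v : EE (n + 2) => ‖v‖⁻¹) (C p q₀ t₀) :=
          h9.inv (norm_ne_zero_iff.2 (hCne p q₀ hqs t₀ hz₀.2))
        have h12 : ContDiffAt ℝ ∞ (fun v : EE (n + 2) => ‖v‖⁻¹ • v) (C p q₀ t₀) :=
          h11.smul contDiffAt_id
        exact h12.const_smul (|D p q₀|⁻¹ * D p q₀)
      have h13 : ContMDiffAt 𝓘(ℝ, EE (n + 2)) 𝓘(ℝ, EE (n + 2)) ∞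
          (fun v : EE (n + 2) => (|D p q₀|⁻¹ * D p q₀) • (‖v‖⁻¹ • v))
          ((fun z : M × ℝ => C p z.1 z.2) (q₀, t₀)) := h8.contMDiffAt
      exact ContMDiffAt.comp_contMDiffWithinAt
        (g := fun v : EE (n + 2) => (|D p q₀|⁻¹ * D p q₀) • (‖v‖⁻¹ • v))
        (f := fun z : M × ℝ => C p z.1 z.2) (q₀, t₀) h13 h7
    have h10 : ((chartAt (EE n) p).source ×ˢ I) ∈ 𝓝[univ ×ˢ I] (q₀, t₀) := by
      have h11 : ((chartAt (EE n) p).source ×ˢ (univ : Set ℝ)) ∈ 𝓝 (q₀, t₀) :=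
        (hopen.prod isOpen_univ).mem_nhds ⟨hqs, mem_univ _⟩
      refine mem_of_superset (inter_mem_nhdsWithin ((univ : Set M) ×ˢ I) h11) ?_
      rintro w ⟨hw1, hw2⟩
      exact ⟨hw2.1, hw1.2⟩
    have h12 := h6.mono_of_mem_nhdsWithin h10
    refine h12.congr_of_eventuallyEq ?_ ?_
    · have h13 : ∀ᶠ z : M × ℝ in 𝓝 (q₀, t₀), ∀ t ∈ I, ν z.1 t
          = (|D p q₀|⁻¹ * D p q₀) • (‖C p z.1 t‖⁻¹ • C p z.1 t) :=
        (continuous_fst.tendsto (q₀, t₀)).eventually h3
      have h14 := h13.filter_mono (nhdsWithin_le_nhds (s := (univ : Set M) ×ˢ I))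
      filter_upwards [h14, self_mem_nhdsWithin] with z hz hz2
      exact hz z.2 hz2.2
    · exact h3.self_of_nhds t₀ hz₀.2
  · intro q t ht
    rw [hνe]
    exact nux_one (hDq q) (hCne q q (mem_chart_source (EE n) q) t ht)
  · intro q t ht
    rw [hνe, real_inner_smul_right, real_inner_smul_right, real_inner_comm]
    have h1 : (inner ℝ (C q q t) (F q t) : ℝ) = 0 := by
      rw [hC]
      simp only
      rw [nuxC_inner, nuxD_a]
    rw [h1, mul_zero, mul_zero]
  · intro q t ht v hv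
    rw [hνe, real_inner_smul_right, real_inner_smul_right]
    have h1 : (inner ℝ v (C q q t) : ℝ) = 0 := by
      rw [real_inner_comm]
      unfold TS at hv
      induction hv using Submodule.span_induction with
      | mem x hx =>
        obtain ⟨i, rfl⟩ := hx
        rw [hC]
        simp only
        rw [nuxC_inner]
        have h2 : dv1 (loc (n := n) F q t) (chartAt (EE n) q q) i = B q q t i := by rw [hB]
        rw [h2, nuxD_b]
      | zero => exact inner_zero_right _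
      | add x y _ _ hx hy => rw [inner_add_right, hx, hy, add_zero]
      | smul c x _ hx => rw [real_inner_smul_right, hx, mul_zero]
    rw [h1, mul_zero, mul_zero]

end Helper66.HSF
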