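import Pool.Agent.Helper35.HSF.StB

/-!
# Project HSF, module SL2 : barrier at a maximal chord
-/

set_option autoImplicit false

namespace Helper66.HSF

open Helper35.HSF Helper35.MS Helper35.PI Helper35.PI2 Helper32.CL
open scoped ContDiff Manifold Topology ENNReal BigOperators
open MeasureTheory Set Filter

/-! ### Linear algebra -/

/-- the vector with coordinates `c` -/
noncomputable def vc {n : ℕ} (c : Fin n → ℝ) : EE n := ∑ i, c i • ee i

private theorem vc_apply {n : ℕ} (c : Fin n → ℝ) (j : Fin n) : vc c j = c j := by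
  unfold vc ee
  simp [Finset.sum_apply, Pi.single_apply]

private theorem norm_L {n N : ℕ} (L : EE n →ₗᵢ[ℝ] EE N) (c : Fin n → ℝ) :
    ‖∑ i, c i • L (ee i)‖ ^ 2 = ∑ i, c i ^ 2 := by
  have h1 : ∑ i, c i • L (ee i) = L (vc c) := by
    unfold vc
    rw [map_sum]
    exact Finset.sum_congr rfl fun i _ => (map_smul L (c i) (ee i)).symm
  rw [h1, L.norm_map, EuclideanSpace.norm_sq_eq]
  refine Finset.sum_congr rfl fun i _ => ?_
  rw [vc_apply, Real.norm_eq_abs, sq_abs]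

/-- `|Sp|² ≤ D⟨Sp,p⟩` for `S = P - K`, `0 ≤ S ≤ D = P - Q` -/
private theorem quadS {n : ℕ} (K : Fin n → Fin n → ℝ) (hK : ∀ i j, K i j = K j i) (P Q : ℝ)
    (hQP : Q < P)
    (hq : ∀ V : Fin n → ℝ, Q * ∑ i, V i ^ 2 ≤ ∑ i, ∑ j, K i j * (V i * V j) ∧
      ∑ i, ∑ j, K i j * (V i * V j) ≤ P * ∑ i, V i ^ 2)
    (p q : Fin n → ℝ) (hqd : ∀ k, q k = P * p k - ∑ j, K k j * p j) :
    ∑ k, q k ^ 2 ≤ (P - Q) * ∑ k, p k * q k := by
  have hD : 0 < P - Q := by linarith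
  obtain ⟨s, hs⟩ : ∃ s : ℝ, s = 1 / (P - Q) := ⟨_, rfl⟩
  have h1 := (hq (fun i => p i - s * q i)).2
  have h2 := (hq q).1
  have hKp : ∀ k, ∑ j, K k j * p j = P * p k - q k := by
    intro k
    rw [hqd k]
    ring
  have e1 : ∑ i, (p i - s * q i) ^ 2
      = ∑ i, p i ^ 2 - 2 * s * (∑ i, p i * q i) + s ^ 2 * ∑ i, q i ^ 2 := by
    rw [Finset.mul_sum, Finset.mul_sum, ← Finset.sum_sub_distrib, ← Finset.sum_add_distrib]
    exact Finset.sum_congr rfl fun i _ => by ring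
  have e2 : ∑ i, ∑ j, K i j * (p i * q j) = ∑ i, ∑ j, K i j * (q i * p j) := by
    rw [Finset.sum_comm]
    refine Finset.sum_congr rfl fun i _ => Finset.sum_congr rfl fun j _ => ?_
    rw [hK j i]
    ring
  have e3 : ∑ i, ∑ j, K i j * ((p i - s * q i) * (p j - s * q j))
      = ∑ i, ∑ j, K i j * (p i * p j) - s * (∑ i, ∑ j, K i j * (p i * q j))
        - s * (∑ i, ∑ j, K i j * (q i * p j)) + s ^ 2 * ∑ i, ∑ j, K i j * (q i * q j) := by
    simp only [Finset.mul_sum, ← Finset.sum_add_distrib, ← Finset.sum_sub_distrib]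
    exact Finset.sum_congr rfl fun i _ => Finset.sum_congr rfl fun j _ => by ring
  have e4 : ∑ i, ∑ j, K i j * (q i * p j) = P * (∑ i, p i * q i) - ∑ i, q i ^ 2 := by
    rw [Finset.mul_sum, ← Finset.sum_sub_distrib]
    refine Finset.sum_congr rfl fun i _ => ?_
    have e5 : ∑ j, K i j * (q i * p j) = q i * ∑ j, K i j * p j := by
      rw [Finset.mul_sum]
      exact Finset.sum_congr rfl fun j _ => by ring
    rw [e5, hKp i]
    ring
  have e6 : ∑ i, ∑ j, K i j * (p i * p j) = P * (∑ i, p i ^ 2) - ∑ i, p i * q i := by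
    rw [Finset.mul_sum, ← Finset.sum_sub_distrib]
    refine Finset.sum_congr rfl fun i _ => ?_
    have e5 : ∑ j, K i j * (p i * p j) = p i * ∑ j, K i j * p j := by
      rw [Finset.mul_sum]
      exact Finset.sum_congr rfl fun j _ => by ring
    rw [e5, hKp i]
    ring
  rw [e1, e3, e2, e4, e6] at h1
  have h3 : 0 ≤ (∑ i, p i * q i) - 2 * s * (∑ i, q i ^ 2)
      + s ^ 2 * (P * (∑ i, q i ^ 2) - ∑ i, ∑ j, K i j * (q i * q j)) := by
    linarith
  have h4 : s ^ 2 * (P * (∑ i, q i ^ 2) - ∑ i, ∑ j, K i j * (q i * q j))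
      ≤ s ^ 2 * ((P - Q) * ∑ i, q i ^ 2) :=
    mul_le_mul_of_nonneg_left (by linarith) (sq_nonneg _)
  have h5 : s ^ 2 * ((P - Q) * ∑ i, q i ^ 2) = s * ∑ i, q i ^ 2 := by
    rw [hs]
    field_simp
  have h6 : s * (∑ i, q i ^ 2) ≤ ∑ i, p i * q i := by linarith
  rw [hs, one_div, inv_mul_le_iff₀ hD] at h6
  exact h6

/-! ### Reflection -/

private theorem refl_iso {N : ℕ} (w : EE N) : ∃ R : EE N →ₗᵢ[ℝ] EE N,
    ∀ v, R v = v - (2 * inner ℝ w v / ‖w‖ ^ 2) • w := by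
  refine ⟨((ℝ ∙ w)ᗮ.reflection).toLinearIsometry, fun v => ?_⟩
  show (ℝ ∙ w)ᗮ.reflection v = _
  rw [Submodule.reflection_orthogonal_apply, Submodule.reflection_singleton_apply]
  rw [neg_sub, two_smul, mul_div_assoc, mul_smul, two_smul]
  rfl

/-- two `n`-dimensional subspaces orthogonal to two orthogonal nonzero vectors of `ℝ^(n+2)` -/
private theorem eq_range {n : ℕ} (L' : EE n →ₗᵢ[ℝ] EE (n + 2)) (T : Submodule ℝ (EE (n + 2)))
    (hT : Module.finrank ℝ T = n) (a b : EE (n + 2)) (ha : a ≠ 0) (hb : b ≠ 0)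
    (hab : (inner ℝ a b : ℝ) = 0) (hTa : ∀ v ∈ T, (inner ℝ v a : ℝ) = 0)
    (hTb : ∀ v ∈ T, (inner ℝ v b : ℝ) = 0) (hLa : ∀ v, (inner ℝ (L' v) a : ℝ) = 0)
    (hLb : ∀ v, (inner ℝ (L' v) b : ℝ) = 0) : LinearMap.range L'.toLinearMap = T := by
  obtain ⟨S, hS⟩ : ∃ S : Submodule ℝ (EE (n + 2)), S = Submodule.span ℝ (range ![a, b]) :=
    ⟨_, rfl⟩
  have hli : LinearIndependent ℝ ![a, b] := by
    refine linearIndependent_of_ne_zero_of_inner_eq_zero ?_ ?_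
    · intro i
      fin_cases i
      · exact ha
      · exact hb
    · intro i j hij
      fin_cases i <;> fin_cases j
      · exact absurd rfl hij
      · exact hab
      · show (inner ℝ b a : ℝ) = 0
        rw [real_inner_comm]
        exact hab
      · exact absurd rfl hij
  have hS2 : Module.finrank ℝ S = 2 := by
    rw [hS, finrank_span_eq_card hli]
    simp
  have hSo : Module.finrank ℝ Sᗮ = n := by
    have h := S.finrank_add_finrank_orthogonal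
    rw [hS2, finrank_euclideanSpace_fin] at h
    omega
  have hmem : ∀ v : EE (n + 2), (inner ℝ v a : ℝ) = 0 → (inner ℝ v b : ℝ) = 0 → v ∈ Sᗮ := by
    intro v h1 h2
    rw [Submodule.mem_orthogonal]
    intro x hx
    rw [hS] at hx
    induction hx using Submodule.span_induction with
    | mem x hx =>
      obtain ⟨i, rfl⟩ := hx
      fin_cases i
      · show (inner ℝ a v : ℝ) = 0
        rw [real_inner_comm]
        exact h1
      · show (inner ℝ b v : ℝ) = 0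
        rw [real_inner_comm]
        exact h2
    | zero => exact inner_zero_left _
    | add x y _ _ hx hy => rw [inner_add_left, hx, hy, add_zero]
    | smul c x _ hx => rw [real_inner_smul_left, hx, mul_zero]
  have hT' : T = Sᗮ := by
    refine Submodule.eq_of_le_of_finrank_eq (fun v hv => hmem v (hTa v hv) (hTb v hv)) ?_
    rw [hT, hSo]
  rw [hT']
  refine Submodule.eq_of_le_of_finrank_eq ?_ ?_
  · rintro v ⟨x, rfl⟩
    exact hmem _ (hLa x) (hLb x)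
  · rw [LinearMap.finrank_range_of_inj L'.injective, hSo, finrank_euclideanSpace_fin]

/-! ### The critical point -/

section geo

variable {n : ℕ} {M : Type} [TopologicalSpace M] [ChartedSpace (EE n) M] [IsManifold (𝓡 n) ∞ M]

private theorem crit (hI2J : StI2J) (J : Set ℝ) (F ν : M → ℝ → EE (n + 2))
    (hF : HFl n J F ν) (x₀ y₀ : M) (t₀ : ℝ) (ht₀ : t₀ ∈ J) (P : ℝ)
    (hP : ∀ y, 2 * (inner ℝ (F y t₀ - F x₀ t₀) (ν x₀ t₀) : ℝ) ≤ P * ‖F y t₀ - F x₀ t₀‖ ^ 2)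
    (hP0 : 2 * (inner ℝ (F y₀ t₀ - F x₀ t₀) (ν x₀ t₀) : ℝ) = P * ‖F y₀ t₀ - F x₀ t₀‖ ^ 2) :
    ∀ v ∈ TS (n := n) F y₀ t₀, (inner ℝ v (F y₀ t₀) : ℝ) = 0 ∧
      (inner ℝ v (ν x₀ t₀ - P • (F y₀ t₀ - F x₀ t₀)) : ℝ) = 0 := by
  obtain ⟨a, ha⟩ : ∃ a : EE n, a = chartAt (EE n) y₀ y₀ := ⟨_, rfl⟩
  obtain ⟨f, hf⟩ : ∃ f : EE n → EE (n + 2), f = loc (n := n) F y₀ t₀ := ⟨_, rfl⟩
  have hfa : f a = F y₀ t₀ := by
    rw [hf, ha]
    unfold loc
    rw [(chartAt (EE n) y₀).left_inv (mem_chart_source (EE n) y₀)]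
  have hd : DifferentiableAt ℝ f a := by
    have h1 := hI2J n (n + 2) M J F hF.mcf.toIsImmJ y₀
    have h2 : ContDiffAt ℝ ∞ (fun z : EE n × ℝ => F ((chartAt (EE n) y₀).symm z.1) z.2)
        (a, t₀) := by
      refine h1.contDiffAt (prod_mem_nhds ?_ (hF.mcf.op.mem_nhds ht₀))
      rw [ha]
      exact (chartAt (EE n) y₀).open_target.mem_nhds
        ((chartAt (EE n) y₀).map_source (mem_chart_source (EE n) y₀))
    have h3 : DifferentiableAt ℝ (fun z : EE n × ℝ => F ((chartAt (EE n) y₀).symm z.1) z.2)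
        (a, t₀) := h2.differentiableAt (by simp)
    rw [hf]
    exact DifferentiableAt.comp (f := fun y : EE n => ((y, t₀) : EE n × ℝ)) a h3
      (differentiableAt_id.prodMk (differentiableAt_const t₀))
  intro v hv
  unfold TS at hv
  rw [← hf, ← ha] at hv
  have hfx : ∀ y : EE n, f y = F ((chartAt (EE n) y₀).symm y) t₀ := by
    intro y
    rw [hf]
    rfl
  induction hv using Submodule.span_induction with
  | mem v hv =>
    obtain ⟨i, rfl⟩ := hv
    obtain ⟨c, hc⟩ : ∃ c : ℝ → EE (n + 2), c = fun r => f (a + r • ee i) := ⟨_, rfl⟩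
    have hcd : HasDerivAt c (dv1 f a i) 0 := by
      have h1 : HasDerivAt (fun r : ℝ => a + r • ee i) (ee i) 0 := by
        have h2 := ((hasDerivAt_id (0 : ℝ)).smul_const (ee i)).const_add a
        simpa using h2
      have h3 : HasFDerivAt f (fderiv ℝ f a) (a + (0 : ℝ) • ee i) := by
        rw [zero_smul, add_zero]
        exact hd.hasFDerivAt
      rw [hc]
      exact h3.comp_hasDerivAt (0 : ℝ) h1
    have hc0 : c 0 = F y₀ t₀ := by
      rw [hc]
      simp only []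
      rw [zero_smul, add_zero, hfa]
    refine ⟨?_, ?_⟩
    · have h1 := hcd.inner ℝ hcd
      have h2 : (fun r => (inner ℝ (c r) (c r) : ℝ)) = fun _ => rr n t₀ := by
        funext r
        rw [real_inner_self_eq_norm_sq, hc]
        simp only []
        rw [hfx]
        exact hF.sph _ t₀ ht₀
      rw [h2] at h1
      have h3 := h1.unique (hasDerivAt_const (0 : ℝ) (rr n t₀))
      rw [hc0, real_inner_comm (dv1 f a i) (F y₀ t₀)] at h3
      have h4 : (inner ℝ (dv1 f a i) (F y₀ t₀) : ℝ) + inner ℝ (dv1 f a i) (F y₀ t₀) = 0 := h3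
      linarith
    · have hcs : HasDerivAt (fun r => c r - F x₀ t₀) (dv1 f a i) 0 := hcd.sub_const _
      have h1 := ((hcs.inner ℝ (hasDerivAt_const (0 : ℝ) (ν x₀ t₀))).const_mul 2).sub
        ((hcs.inner ℝ hcs).const_mul P)
      have hmax : IsLocalMax (fun r => 2 * (inner ℝ (c r - F x₀ t₀) (ν x₀ t₀) : ℝ)
          - P * (inner ℝ (c r - F x₀ t₀) (c r - F x₀ t₀) : ℝ)) 0 := by
        refine Filter.Eventually.of_forall fun r => ?_
        simp only []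
        rw [hc0, real_inner_self_eq_norm_sq, real_inner_self_eq_norm_sq, hP0, sub_self, hc]
        simp only []
        rw [hfx]
        linarith [hP ((chartAt (EE n) y₀).symm (a + r • ee i))]
      have h2 := hmax.hasDerivAt_eq_zero h1
      rw [hc0, inner_zero_right, zero_add,
        real_inner_comm (dv1 f a i) (F y₀ t₀ - F x₀ t₀)] at h2
      rw [inner_sub_right, inner_smul_right]
      linarith
  | zero => exact ⟨inner_zero_left _, inner_zero_left _⟩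
  | add x y _ _ hx hy =>
    rw [inner_add_left, inner_add_left, hx.1, hx.2, hy.1, hy.2, add_zero]
    exact ⟨rfl, rfl⟩
  | smul c x _ hx =>
    rw [real_inner_smul_left, real_inner_smul_left, hx.1, hx.2, mul_zero]
    exact ⟨rfl, rfl⟩

/-! ### The quadratic form -/

omit [IsManifold (𝓡 n) ∞ M] in
private theorem quad (hG2 : StG2) (hNR : StNR) (J : Set ℝ) (F ν : M → ℝ → EE (n + 2))
    (hF : HFl n J F ν) (x₀ : M) (t₀ : ℝ) (ht₀ : t₀ ∈ J) (L : EE n →ₗᵢ[ℝ] EE (n + 2))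
    (u : EE n × ℝ → EE (n + 2)) (θ : EE n × ℝ → M) (hG : GCh n F x₀ t₀ L u θ) (P Q : ℝ)
    (hZ : ∀ z ∈ ZS n F ν x₀ t₀, Q ≤ z ∧ z ≤ P) (V : Fin n → ℝ) :
    Q * ∑ i, V i ^ 2
      ≤ ∑ i, ∑ j, (inner ℝ (jgg u (0, t₀) i j) (ν x₀ t₀) : ℝ) * (V i * V j) ∧
    ∑ i, ∑ j, (inner ℝ (jgg u (0, t₀) i j) (ν x₀ t₀) : ℝ) * (V i * V j)
      ≤ P * ∑ i, V i ^ 2 := by
  have h2 := (hG2 n (n + 2) (F x₀ t₀) L u t₀ hG.sol).self_of_nhds
  have hts := hG.ts.self_of_nhds
  have hfs := hG.fs.self_of_nhds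
  rw [hG.pt] at hts hfs
  simp only [] at h2 hts hfs
  have hdv : ∀ i, dv1 (grf (F x₀ t₀) L u t₀) 0 i = L (ee i) := by
    intro i
    have h := h2.1 i
    rw [hG.sol.du0 i, add_zero] at h
    exact h
  have hν : nrm (grf (F x₀ t₀) L u t₀) 0 (ν x₀ t₀) = ν x₀ t₀ := by
    refine (hNR n (n + 2) (grf (F x₀ t₀) L u t₀) 0 h2.2.2.2.2).2.2.2.1 _ fun i => ?_
    rw [real_inner_comm]
    refine hF.tν x₀ t₀ ht₀ _ ?_
    rw [← hts]
    exact Submodule.subset_span ⟨i, rfl⟩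
  have hself := (hNR n (n + 2) (grf (F x₀ t₀) L u t₀) 0 h2.2.2.2.2).2.2.2.2.2.2.1
  have e2 : ∀ i j, (inner ℝ (sff (grf (F x₀ t₀) L u t₀) 0 i j) (ν x₀ t₀) : ℝ)
      = inner ℝ (jgg u (0, t₀) i j) (ν x₀ t₀) := by
    intro i j
    unfold sff
    rw [hself, hν, h2.2.1 i j]
  have hpos : 0 ≤ ∑ i, V i ^ 2 := Finset.sum_nonneg fun i _ => sq_nonneg _
  rcases hpos.eq_or_lt with h0 | h0
  · have hV : ∀ i, V i = 0 := by
      intro i
      have h := (Finset.sum_eq_zero_iff_of_nonneg (fun i _ => sq_nonneg (V i))).1 h0.symm i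
        (Finset.mem_univ i)
      exact (pow_eq_zero_iff two_ne_zero).1 h
    simp [hV]
  · obtain ⟨S, hS⟩ : ∃ S : ℝ, S = ‖∑ i, V i • L (ee i)‖ := ⟨_, rfl⟩
    have hS2 : S ^ 2 = ∑ i, V i ^ 2 := by rw [hS, norm_L L V]
    have hS0 : 0 < S := by
      have h1 : 0 ≤ S := by rw [hS]; exact norm_nonneg _
      rcases h1.eq_or_lt with h3 | h3
      · rw [← hS2, ← h3] at h0
        norm_num at h0
      · exact h3
    obtain ⟨c, hc1, hc2⟩ := hfs (fun i => S⁻¹ * V i)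
    have hmem : (∑ i, ∑ j, (inner ℝ (jgg u (0, t₀) i j) (ν x₀ t₀) : ℝ) * (V i * V j))
        / (∑ i, V i ^ 2) ∈ ZS n F ν x₀ t₀ := by
      right
      refine ⟨c, ?_, ?_⟩
      · unfold gn
        rw [hc1]
        simp only [hdv]
        have e1 : ∑ i, (S⁻¹ * V i) • L (ee i) = S⁻¹ • ∑ i, V i • L (ee i) := by
          rw [Finset.smul_sum]
          exact Finset.sum_congr rfl fun i _ => mul_smul _ _ _
        rw [e1, norm_smul, ← hS, norm_inv, Real.norm_eq_abs, abs_of_pos hS0,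
          inv_mul_cancel₀ hS0.ne', one_pow]
      · unfold hn
        rw [hc2, sum_inner, Finset.sum_div]
        refine Finset.sum_congr rfl fun i _ => ?_
        rw [sum_inner, Finset.sum_div]
        refine Finset.sum_congr rfl fun j _ => ?_
        rw [real_inner_smul_left, e2, ← hS2]
        field_simp
    have h3 := hZ _ hmem
    rw [le_div_iff₀ h0, div_le_iff₀ h0] at h3
    exact h3

end geo

theorem hSL2 (hGCH : StGCH) (hNUJ : StNUJ) (hBTJ : StBTJ) (hG2 : StG2) (hNR : StNR)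
    (hI2J : StI2J) : StSL2 := by
  intro n M _ _ _ J F ν hF x₀ t₀ ht₀ L u θ hG hm y₀ P Q hne hPd hQP hZ
  obtain ⟨K, hK⟩ : ∃ K : Fin n → Fin n → ℝ,
    K = fun i j => inner ℝ (jgg u (0, t₀) i j) (ν x₀ t₀) := ⟨_, rfl⟩
  obtain ⟨n1, n2, n3, n4, n5, n6, n7, n8⟩ := hNUJ n M J F ν hF x₀ t₀ ht₀ L u θ hG hm K hK
  have hquad : ∀ V : Fin n → ℝ, Q * ∑ i, V i ^ 2 ≤ ∑ i, ∑ j, K i j * (V i * V j) ∧
      ∑ i, ∑ j, K i j * (V i * V j) ≤ P * ∑ i, V i ^ 2 := by
    rw [hK]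
    exact quad hG2 hNR J F ν hF x₀ t₀ ht₀ L u θ hG P Q hZ
  -- the chord
  obtain ⟨w, hw⟩ : ∃ w : EE (n + 2), w = F y₀ t₀ - F x₀ t₀ := ⟨_, rfl⟩
  have hw0 : w ≠ 0 := by
    rw [hw]
    exact sub_ne_zero.2 hne
  have hwn : 0 < ‖w‖ ^ 2 := by
    have h := norm_pos_iff.2 hw0
    positivity
  have hPw : 2 * (inner ℝ w (ν x₀ t₀) : ℝ) = P * ‖w‖ ^ 2 := by
    rw [hPd]
    unfold zch
    rw [← hw, div_mul_cancel₀ _ hwn.ne']
  have hPw' : P = 2 * (inner ℝ w (ν x₀ t₀) : ℝ) / ‖w‖ ^ 2 := by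
    rw [hPw, mul_div_assoc, div_self hwn.ne', mul_one]
  have hP : ∀ y, 2 * (inner ℝ (F y t₀ - F x₀ t₀) (ν x₀ t₀) : ℝ)
      ≤ P * ‖F y t₀ - F x₀ t₀‖ ^ 2 := by
    intro y
    by_cases h : F y t₀ = F x₀ t₀
    · rw [h, sub_self, inner_zero_left, norm_zero]
      norm_num
    · have h1 := (hZ _ (Or.inl ⟨y, h, rfl⟩)).2
      unfold zch at h1
      have h2 : 0 < ‖F y t₀ - F x₀ t₀‖ ^ 2 := by
        have h3 := norm_pos_iff.2 (sub_ne_zero.2 h)
        positivity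
      rwa [div_le_iff₀ h2] at h1
  have hcr := crit hI2J J F ν hF x₀ y₀ t₀ ht₀ P hP (by rw [← hw]; exact hPw)
  rw [← hw] at hcr
  -- both points lie on the sphere
  have hwX : (inner ℝ w (F x₀ t₀) : ℝ) = -‖w‖ ^ 2 / 2 := by
    have h1 := hF.sph x₀ t₀ ht₀
    have h2 := hF.sph y₀ t₀ ht₀
    have h3 : F y₀ t₀ = w + F x₀ t₀ := by rw [hw]; abel
    rw [h3, norm_add_sq_real, h1] at h2
    linarith
  -- the reflection
  obtain ⟨R, hR⟩ := refl_iso w
  have hRX : R (F x₀ t₀) = F y₀ t₀ := by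
    rw [hR, hwX]
    have e1 : 2 * (-‖w‖ ^ 2 / 2) / ‖w‖ ^ 2 = -1 := by
      field_simp
    rw [e1, neg_smul, one_smul, sub_neg_eq_add, hw]
    abel
  have hRν : R (ν x₀ t₀) = ν x₀ t₀ - P • w := by
    rw [hR, ← hPw']
  obtain ⟨L', hL'⟩ : ∃ L' : EE n →ₗᵢ[ℝ] EE (n + 2), L' = R.comp L := ⟨_, rfl⟩
  have hLa : ∀ v, L' v = R (L v) := by
    intro v
    rw [hL']
    rfl
  have hrr := hF.r0 t₀ ht₀
  have hνn := hF.nν x₀ t₀ ht₀
  have hY0 : F y₀ t₀ ≠ 0 := by
    intro h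
    have h1 := hF.sph y₀ t₀ ht₀
    rw [h, norm_zero] at h1
    rw [← h1] at hrr
    norm_num at hrr
  have hRν0 : R (ν x₀ t₀) ≠ 0 := by
    intro h
    have h1 := R.norm_map (ν x₀ t₀)
    rw [h, norm_zero, hνn] at h1
    norm_num at h1
  have hrange : LinearMap.range L'.toLinearMap = TS (n := n) F y₀ t₀ := by
    refine eq_range L' _ ?_ (F y₀ t₀) (R (ν x₀ t₀)) hY0 hRν0 ?_ (fun v hv => (hcr v hv).1) ?_
      ?_ ?_
    · unfold TS
      rw [finrank_span_eq_card (hF.mcf.imm y₀ t₀ ht₀), Fintype.card_fin]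
    · rw [← hRX, R.inner_map_map]
      exact hF.Fν x₀ t₀ ht₀
    · intro v hv
      rw [hRν]
      exact (hcr v hv).2
    · intro v
      rw [hLa, ← hRX, R.inner_map_map]
      exact (n1 v).2
    · intro v
      rw [hLa, R.inner_map_map]
      exact (n1 v).1
  obtain ⟨u', θ', hG', -, -⟩ := hGCH n (n + 2) M J F hF.mcf y₀ t₀ ht₀ L' hrange
  have hm0 : (fun z : EE n × ℝ => ν (θ z) z.2) (0, t₀) = ν x₀ t₀ := by
    simp only []
    rw [hG.pt]
  obtain ⟨β, hβ⟩ : ∃ β : EE n × ℝ → ℝ, β = fun z =>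
      2 * inner ℝ (grf (F y₀ t₀) L' u' z.2 z.1 - grf (F x₀ t₀) L u z.2 z.1)
          ((fun z : EE n × ℝ => ν (θ z) z.2) z)
        / ‖grf (F y₀ t₀) L' u' z.2 z.1 - grf (F x₀ t₀) L u z.2 z.1‖ ^ 2 := ⟨_, rfl⟩
  obtain ⟨r1, r2⟩ := hBTJ n (n + 2) (F x₀ t₀) (F y₀ t₀) L L' u u' t₀ hG.sol hG'.sol w hw hw0
    (fun v => by rw [hLa, hR]) (fun z : EE n × ℝ => ν (θ z) z.2) (ν x₀ t₀) K (h2N n F x₀ t₀)
    (2 * Hs n F ν x₀ t₀ / rr n t₀) hm hm0 (fun v => (n1 v).1) n7 n8 hwX β hβ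
  have hg0 : grf (F x₀ t₀) L u t₀ 0 = F x₀ t₀ := by
    unfold grf
    rw [map_zero, hG.sol.u0, add_zero, add_zero]
  have hg0' : grf (F y₀ t₀) L' u' t₀ 0 = F y₀ t₀ := by
    unfold grf
    rw [map_zero, hG'.sol.u0, add_zero, add_zero]
  have hβ0 : β (0, t₀) = P := by
    rw [hβ]
    simp only []
    rw [hg0, hg0', hG.pt, hPd]
    rfl
  obtain ⟨p, hp⟩ : ∃ p : Fin n → ℝ, p = fun k => inner ℝ w (L (ee k)) := ⟨_, rfl⟩
  obtain ⟨-, r3, r4⟩ := r2 P p hβ0.symm hp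
  refine ⟨β, r1, hβ0, ?_, ?_⟩
  · have hc1 : ContinuousAt (fun z : EE n × ℝ => grf (F y₀ t₀) L' u' z.2 z.1
        - grf (F x₀ t₀) L u z.2 z.1) ((0 : EE n), t₀) := by
      have k1 : ContinuousAt (fun z : EE n × ℝ => u' (z.1, z.2)) ((0 : EE n), t₀) :=
        hG'.sol.smooth.continuousAt
      have k2 : ContinuousAt (fun z : EE n × ℝ => u (z.1, z.2)) ((0 : EE n), t₀) :=
        hG.sol.smooth.continuousAt
      have k3 : ContinuousAt (fun z : EE n × ℝ => F y₀ t₀ + L' z.1) ((0 : EE n), t₀) :=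
        (continuous_const.add (L'.continuous.comp continuous_fst)).continuousAt
      have k4 : ContinuousAt (fun z : EE n × ℝ => F x₀ t₀ + L z.1) ((0 : EE n), t₀) :=
        (continuous_const.add (L.continuous.comp continuous_fst)).continuousAt
      unfold grf
      exact (k3.add k1).sub (k4.add k2)
    have hc2 : ∀ᶠ z in 𝓝 ((0 : EE n), t₀), grf (F y₀ t₀) L' u' z.2 z.1
        - grf (F x₀ t₀) L u z.2 z.1 ≠ 0 := by
      refine hc1.eventually_ne ?_
      simp only []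
      rw [hg0, hg0', ← hw]
      exact hw0
    filter_upwards [hG.eq, hG'.eq, hc2] with z hz hz' hz2
    left
    rw [← hz, ← hz'] at hz2
    refine ⟨θ' z, sub_ne_zero.1 hz2, ?_⟩
    rw [hβ]
    unfold zch
    simp only []
    rw [hz, hz']
  · have hs := quadS K n2 P Q hQP hquad p (fun k => P * p k - ∑ j, K k j * p j) (fun k => rfl)
    have hD : 0 < P - Q := by linarith
    have e1 : ∑ k, jg β (0, t₀) k ^ 2
        = 4 / ‖w‖ ^ 4 * ∑ k, (P * p k - ∑ j, K k j * p j) ^ 2 := by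
      rw [Finset.mul_sum]
      refine Finset.sum_congr rfl fun k _ => ?_
      rw [r3 k, mul_pow]
      congr 1
      field_simp
      norm_num
    rw [r4, e1]
    have hw4 : 0 < 8 / ‖w‖ ^ 4 := by
      have h := norm_pos_iff.2 hw0
      positivity
    have e2 : 2 / (P - Q) * (4 / ‖w‖ ^ 4 * ∑ k, (P * p k - ∑ j, K k j * p j) ^ 2)
        = 8 / ‖w‖ ^ 4 * ((∑ k, (P * p k - ∑ j, K k j * p j) ^ 2) / (P - Q)) := by
      have h := norm_pos_iff.2 hw0
      field_simp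
      ring
    have e3 : (∑ k, (P * p k - ∑ j, K k j * p j) ^ 2) / (P - Q)
        ≤ ∑ k, p k * (P * p k - ∑ j, K k j * p j) := by
      rw [div_le_iff₀ hD, mul_comm]
      exact hs
    have e4 := mul_le_mul_of_nonneg_left e3 hw4.le
    rw [e2]
    linarith

end Helper66.HSF
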